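import Mathlib
import Pool.Agent.Y690.PP.Stm

/-! PP-MOM: the method of moments (job 2670, helper929 for helper690) -/

set_option autoImplicit false

open Finset Filter Topology

namespace Pool.Agent.Y929.PP

open Pool.Agent.Y690.PP (al SMOM)

noncomputable section

/-! ### Euler's product -/

/-- `(q; q)_n` for `q = 1 / 2` -/
def Q (n : ℕ) : ℝ := ∏ a ∈ range n, (1 - (1 / 2 : ℝ) ^ (a + 1))

lemma Q_zero : Q 0 = 1 := by simp [Q]

lemma Q_succ (n : ℕ) : Q (n + 1) = Q n * (1 - (1 / 2 : ℝ) ^ (n + 1)) := prod_range_succ _ _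

lemma Q_ge' (n : ℕ) : 1 / 4 + (1 / 2 : ℝ) ^ (n + 2) ≤ Q (n + 1) := by
  induction n with
  | zero =>
    rw [Q_succ, Q_zero]
    norm_num
  | succ n ih =>
    rw [Q_succ]
    have h1 : (0 : ℝ) < (1 / 2) ^ (n + 2) := by positivity
    have h2 : (1 / 2 : ℝ) ^ (n + 2) ≤ 1 / 4 := by
      rw [pow_add]
      have : (1 / 2 : ℝ) ^ n ≤ 1 := pow_le_one₀ (by norm_num) (by norm_num)
      nlinarith
    have h3 : (1 / 2 : ℝ) ^ (n + 1 + 2) = (1 / 2) ^ (n + 2) * (1 / 2) := by ring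
    have h4 : (1 / 2 : ℝ) ^ (n + 1 + 1) = (1 / 2) ^ (n + 2) := by ring
    rw [h3, h4]
    have h5 : (1 / 4 + (1 / 2 : ℝ) ^ (n + 2)) * (1 - (1 / 2) ^ (n + 2)) ≤
        Q (n + 1) * (1 - (1 / 2) ^ (n + 2)) := mul_le_mul_of_nonneg_right ih (by linarith)
    nlinarith

lemma Q_ge (n : ℕ) : 1 / 4 ≤ Q n := by
  rcases n with _ | n
  · rw [Q_zero]; norm_num
  · have := Q_ge' n
    have h1 : (0 : ℝ) < (1 / 2) ^ (n + 2) := by positivity
    linarith

lemma Q_pos (n : ℕ) : 0 < Q n := by linarith [Q_ge n]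

lemma Q_anti : Antitone Q := by
  refine antitone_nat_of_succ_le fun n => ?_
  rw [Q_succ]
  have h1 : (0 : ℝ) < (1 / 2) ^ (n + 1) := by positivity
  nlinarith [Q_pos n]

lemma Q_ratio : Tendsto (fun n => Q (2 * n) / Q n) atTop (𝓝 1) := by
  have hb : BddBelow (Set.range Q) := ⟨1 / 4, by rintro _ ⟨n, rfl⟩; exact Q_ge n⟩
  have h1 := tendsto_atTop_ciInf Q_anti hb
  have hpos : (⨅ i, Q i) ≠ 0 := by
    have : 1 / 4 ≤ ⨅ i, Q i := le_ciInf Q_ge
    intro h
    rw [h] at this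
    norm_num at this
  have h2 : Tendsto (fun n : ℕ => 2 * n) atTop atTop :=
    tendsto_id.const_mul_atTop' (by norm_num)
  have h3 := (h1.comp h2).div h1 hpos
  rw [div_self hpos] at h3
  exact h3

/-- Euler's series -/
def F (z : ℝ) : ℝ := ∑' i : ℕ, z ^ i / Q i

lemma F_term (z : ℝ) (i : ℕ) : |z ^ i / Q i| ≤ 4 * |z| ^ i := by
  rw [abs_div, abs_pow, abs_of_pos (Q_pos i), div_le_iff₀ (Q_pos i)]
  have h1 := Q_ge i
  have h2 : 0 ≤ |z| ^ i := by positivity
  nlinarith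

lemma F_sum {z : ℝ} (hz : |z| < 1) : Summable (fun i : ℕ => z ^ i / Q i) :=
  Summable.of_norm_bounded (((summable_geometric_of_lt_one (abs_nonneg z) hz)).mul_left 4)
    (fun i => by rw [Real.norm_eq_abs]; exact F_term z i)

lemma F_eq {z : ℝ} (hz : |z| < 1) : F z * (1 - z) = F (z / 2) := by
  have hz2 : |z / 2| < 1 := by
    rw [abs_div, abs_two]
    linarith [abs_nonneg z]
  have h1 := F_sum hz
  have h2 := F_sum hz2
  unfold F
  rw [h1.tsum_eq_zero_add, h2.tsum_eq_zero_add] 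
  have h3 : (z ^ 0 / Q 0 + ∑' i : ℕ, z ^ (i + 1) / Q (i + 1)) * (1 - z) =
      z ^ 0 / Q 0 + ∑' i : ℕ, z ^ (i + 1) / Q (i + 1) - z * ∑' i : ℕ, z ^ i / Q i := by
    rw [h1.tsum_eq_zero_add]
    ring
  rw [h3, ← tsum_mul_left, add_sub_assoc, ← (((summable_nat_add_iff 1).2 h1).tsum_sub (h1.mul_left z))]
  simp only [pow_zero]
  congr 1
  refine tsum_congr fun i => ?_
  rw [Q_succ, show z / 2 = z * (1 / 2) by ring, mul_pow]
  have hQ := (Q_pos i).ne'
  have hq : (1 - (1 / 2 : ℝ) ^ (i + 1)) ≠ 0 := by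
    have : (1 / 2 : ℝ) ^ (i + 1) < 1 := pow_lt_one₀ (by norm_num) (by norm_num) (by omega)
    intro h
    linarith
  generalize (1 / 2 : ℝ) ^ (i + 1) = q at hq ⊢
  rw [pow_succ]
  field_simp
  ring

lemma F_bd {z : ℝ} (hz : |z| ≤ 1 / 2) : |F z - 1| ≤ 8 * |z| := by
  have hz1 : |z| < 1 := by linarith
  have h1 := F_sum hz1
  have h0 : F z - 1 = ∑' i : ℕ, z ^ (i + 1) / Q (i + 1) := by
    unfold F
    rw [h1.tsum_eq_zero_add, Q_zero]
    simp
  rw [h0]
  have h2 := (hasSum_geometric_of_lt_one (abs_nonneg z) hz1).mul_left (4 * |z|)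
  have h3 : ‖∑' i : ℕ, z ^ (i + 1) / Q (i + 1)‖ ≤ 4 * |z| * (1 - |z|)⁻¹ := by
    refine tsum_of_norm_bounded h2 fun i => ?_
    rw [Real.norm_eq_abs]
    refine (F_term z (i + 1)).trans (le_of_eq ?_)
    rw [pow_succ]
    ring
  rw [Real.norm_eq_abs] at h3
  refine h3.trans ?_
  rw [← div_eq_mul_inv, div_le_iff₀ (by linarith)]
  nlinarith [abs_nonneg z]

lemma F_prod (n : ℕ) : F (-(1 / 2)) * ∏ a ∈ range n, (1 + (1 / 2 : ℝ) ^ (a + 1)) =
    F (-(1 / 2) ^ (n + 1)) := by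
  induction n with
  | zero => simp
  | succ n ih =>
    rw [prod_range_succ, ← mul_assoc, ih]
    have h1 : |(-(1 / 2) ^ (n + 1) : ℝ)| < 1 := by
      rw [abs_neg, abs_pow, abs_of_pos (by norm_num : (0 : ℝ) < 1 / 2)]
      exact pow_lt_one₀ (by norm_num) (by norm_num) (by omega)
    have h2 := F_eq h1
    rw [sub_neg_eq_add] at h2
    rw [h2]
    congr 1
    ring

lemma prod_id (n : ℕ) : (∏ a ∈ range n, (1 + (1 / 2 : ℝ) ^ (a + 1))) *
    (∏ i ∈ range n, (1 - (1 / 2 : ℝ) ^ (2 * i + 1))) * Q n = Q (2 * n) := by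
  induction n with
  | zero => simp [Q_zero]
  | succ n ih =>
    rw [prod_range_succ, prod_range_succ, Q_succ, show 2 * (n + 1) = 2 * n + 1 + 1 by ring, Q_succ,
      Q_succ, ← ih]
    have e1 : (1 / 2 : ℝ) ^ (2 * n + 1 + 1) = ((1 / 2) ^ (n + 1)) ^ 2 := by
      rw [← pow_mul]
      congr 1
      ring
    rw [e1]
    ring

lemma al_lim : Tendsto (fun n => ∏ i ∈ range n, (1 - (1 / 2 : ℝ) ^ (2 * i + 1))) atTop (𝓝 al) := by
  have h1 : Summable (fun i : ℕ => ‖(-(1 / 2 : ℝ) ^ (2 * i + 1) : ℝ)‖) := by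
    have h2 : Summable (fun i : ℕ => (1 / 4 : ℝ) ^ i) :=
      summable_geometric_of_lt_one (by norm_num) (by norm_num)
    refine Summable.of_nonneg_of_le (fun i => norm_nonneg _) (fun i => ?_) h2
    rw [norm_neg, norm_pow, Real.norm_eq_abs, abs_of_pos (by norm_num : (0 : ℝ) < 1 / 2), pow_succ,
      pow_mul]
    have h3 : (0 : ℝ) ≤ (1 / 4) ^ i := by positivity
    norm_num
  have h4 := (multipliable_one_add_of_summable h1).hasProd.tendsto_prod_nat
  simp only [← sub_eq_add_neg] at h4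
  exact h4

theorem F_al : F (-(1 / 2)) = al := by
  have h1 : Tendsto (fun n => F (-(1 / 2)) * (Q (2 * n) / Q n)) atTop (𝓝 (F (-(1 / 2)) * 1)) :=
    Q_ratio.const_mul _
  have h2 : Tendsto (fun n : ℕ => F (-(1 / 2) ^ (n + 1))) atTop (𝓝 1) := by
    rw [tendsto_iff_norm_sub_tendsto_zero]
    have h3 : Tendsto (fun n : ℕ => 8 * (1 / 2 : ℝ) ^ (n + 1)) atTop (𝓝 0) := by
      have h4 := (tendsto_pow_atTop_nhds_zero_of_lt_one (r := (1 / 2 : ℝ)) (by norm_num)
        (by norm_num)).comp (tendsto_add_atTop_nat 1)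
      simpa using h4.const_mul 8
    refine squeeze_zero (fun n => norm_nonneg _) (fun n => ?_) h3
    have h5 : |(-(1 / 2) ^ (n + 1) : ℝ)| = (1 / 2) ^ (n + 1) := by
      rw [abs_neg, abs_pow, abs_of_pos (by norm_num : (0 : ℝ) < 1 / 2)]
    have h6 : |(-(1 / 2) ^ (n + 1) : ℝ)| ≤ 1 / 2 := by
      rw [h5, pow_succ]
      have : (1 / 2 : ℝ) ^ n ≤ 1 := pow_le_one₀ (by norm_num) (by norm_num)
      linarith
    have h7 := F_bd h6
    rw [h5] at h7
    rw [Real.norm_eq_abs]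
    exact h7
  have h8 := h2.mul al_lim
  rw [one_mul] at h8
  rw [mul_one] at h1
  refine tendsto_nhds_unique h1 (h8.congr fun n => ?_)
  rw [← F_prod n, ← prod_id n]
  have := (Q_pos n).ne'
  field_simp

/-- partial sums -/
lemma s_lim : Tendsto (fun m : ℕ => ∑ i ∈ range (m + 1), (-(1 / 2 : ℝ)) ^ i / Q i) atTop (𝓝 al) := by
  have h1 : |(-(1 / 2) : ℝ)| < 1 := by
    rw [abs_neg, abs_of_pos] <;> norm_num
  have h2 := (F_sum h1).hasSum.tendsto_sum_nat.comp (tendsto_add_atTop_nat 1)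
  have h3 : ∑' i : ℕ, (-(1 / 2 : ℝ)) ^ i / Q i = al := F_al
  rw [h3] at h2
  exact h2

/-! ### The linear functional -/

open Polynomial in
/-- the moments -/
def cc (k : ℕ) : ℝ := ∏ i ∈ range k, ((2 : ℝ) ^ i + 1)

lemma cc_succ (k : ℕ) : cc (k + 1) = cc k * ((2 : ℝ) ^ k + 1) := prod_range_succ _ _

/-- the linear functional -/
def L : Polynomial ℝ →ₗ[ℝ] ℝ := Polynomial.lsum fun k => cc k • (LinearMap.id : ℝ →ₗ[ℝ] ℝ)

lemma L_mon (k : ℕ) (a : ℝ) : L (Polynomial.monomial k a) = cc k * a := by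
  unfold L
  rw [Polynomial.lsum_apply, Polynomial.sum_monomial_index]
  · simp
  · simp

lemma L_C_mul (a : ℝ) (f : Polynomial ℝ) : L (Polynomial.C a * f) = a * L f := by
  rw [← Polynomial.smul_eq_C_mul, map_smul, smul_eq_mul]

lemma L_X (f : Polynomial ℝ) :
    L (Polynomial.X * f) = L (f.comp (Polynomial.C 2 * Polynomial.X)) + L f := by
  induction f using Polynomial.induction_on' with
  | add p q hp hq =>
    rw [mul_add, map_add, hp, hq, Polynomial.add_comp, map_add, map_add]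
    ring
  | monomial k a =>
    have e1 : (Polynomial.monomial k a).comp (Polynomial.C 2 * Polynomial.X : Polynomial ℝ) =
        Polynomial.monomial k (a * 2 ^ k) := by
      rw [Polynomial.monomial_comp, mul_pow, ← Polynomial.C_pow, ← mul_assoc, ← Polynomial.C_mul,
        Polynomial.C_mul_X_pow_eq_monomial]
    have e2 : (Polynomial.X : Polynomial ℝ) * Polynomial.monomial k a = Polynomial.monomial (k + 1) a :=
      Polynomial.X_mul_monomial k a
    rw [e1, e2, L_mon, L_mon, L_mon, cc_succ]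
    ring

/-- `∏_{a<i} (X - 2^a)` -/
def II (i : ℕ) : Polynomial ℝ := ∏ a ∈ range i, (Polynomial.X - Polynomial.C ((2 : ℝ) ^ a))

lemma II_succ (i : ℕ) : II (i + 1) = II i * (Polynomial.X - Polynomial.C ((2 : ℝ) ^ i)) :=
  prod_range_succ _ _

lemma II_comp (i : ℕ) : (II (i + 1)).comp (Polynomial.C 2 * Polynomial.X) =
    Polynomial.C ((2 : ℝ) ^ i) * ((Polynomial.C 2 * Polynomial.X - 1) * II i) := by
  induction i with
  | zero =>
    rw [II_succ]
    simp [II]
  | succ i ih =>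
    rw [II_succ (i + 1), Polynomial.mul_comp, ih, II_succ i, Polynomial.sub_comp, Polynomial.X_comp,
      Polynomial.C_comp, pow_succ, Polynomial.C_mul]
    ring

lemma L_II (i : ℕ) : L (II (i + 1)) = 2 ^ i * L (II i) := by
  induction i with
  | zero =>
    have e0 : II 0 = Polynomial.monomial 0 (1 : ℝ) := by simp [II]
    have e1 : II (0 + 1) = Polynomial.monomial 1 (1 : ℝ) - Polynomial.monomial 0 (1 : ℝ) := by
      rw [II_succ, e0]
      simp [Polynomial.X]
    rw [e1, e0, map_sub, L_mon, L_mon]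
    norm_num [cc]
  | succ i ih =>
    have e1 : II (i + 1 + 1) = Polynomial.X * II (i + 1) - Polynomial.C ((2 : ℝ) ^ (i + 1)) * II (i + 1) := by
      rw [II_succ (i + 1)]
      ring
    have e2 : Polynomial.C ((2 : ℝ) ^ i) * ((Polynomial.C 2 * Polynomial.X - 1) * II i) =
        Polynomial.C ((2 : ℝ) ^ i * 2) * II (i + 1) +
          Polynomial.C ((2 : ℝ) ^ i * (2 ^ (i + 1) - 1)) * II i := by
      rw [II_succ i]
      simp only [Polynomial.C_mul, Polynomial.C_sub, Polynomial.C_1, pow_succ]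
      ring
    rw [e1, map_sub, L_X, II_comp, e2, map_add, L_C_mul, L_C_mul, L_C_mul, ih]
    ring

/-- `∏_{a<m} (2^(a+1) - 1)` -/
def DD (m : ℕ) : ℝ := ∏ a ∈ range m, ((2 : ℝ) ^ (a + 1) - 1)

lemma DD_succ (m : ℕ) : DD (m + 1) = DD m * ((2 : ℝ) ^ (m + 1) - 1) := prod_range_succ _ _

lemma two_pow_sub (m : ℕ) : (0 : ℝ) < 2 ^ (m + 1) - 1 := by
  have : (1 : ℝ) < 2 ^ (m + 1) := one_lt_pow₀ (by norm_num) (by omega)
  linarith

lemma DD_pos (m : ℕ) : 0 < DD m := prod_pos fun a _ => two_pow_sub a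

lemma L_II_div (m : ℕ) : L (II m) / DD m = (1 / 2 : ℝ) ^ m / Q m := by
  induction m with
  | zero =>
    have e0 : II 0 = Polynomial.monomial 0 (1 : ℝ) := by simp [II]
    rw [e0, L_mon]
    simp [cc, DD, Q]
  | succ m ih =>
    rw [L_II, DD_succ, Q_succ]
    have h1 := (DD_pos m).ne'
    have h2 := (Q_pos m).ne'
    have h3 := (two_pow_sub m).ne'
    rw [div_eq_div_iff h1 h2] at ih
    have h4 : (1 / 2 : ℝ) ^ (m + 1) * 2 ^ (m + 1) = 1 := by
      rw [← mul_pow]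
      norm_num
    have h5 : (1 - (1 / 2 : ℝ) ^ (m + 1)) ≠ 0 := by
      have : (1 / 2 : ℝ) ^ (m + 1) < 1 := pow_lt_one₀ (by norm_num) (by norm_num) (by omega)
      intro h
      linarith
    rw [div_eq_div_iff (mul_ne_zero h1 h3) (mul_ne_zero h2 h5)]
    have h6 : (1 - (1 / 2 : ℝ) ^ (m + 1)) = (1 / 2 : ℝ) ^ (m + 1) * (2 ^ (m + 1) - 1) := by
      rw [mul_sub, h4, mul_one]
    have h7 : (1 / 2 : ℝ) ^ (m + 1) * 2 ^ m = 1 / 2 := by
      rw [pow_succ, mul_assoc, mul_comm (1 / 2 : ℝ) (2 ^ m), ← mul_assoc, ← mul_pow]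
      norm_num
    rw [h6]
    calc 2 ^ m * L (II m) * (Q m * ((1 / 2) ^ (m + 1) * (2 ^ (m + 1) - 1)))
        = ((1 / 2) ^ (m + 1) * 2 ^ m) * (L (II m) * Q m) * (2 ^ (m + 1) - 1) := by ring
      _ = (1 / 2) ^ (m + 1) * (DD m * (2 ^ (m + 1) - 1)) := by
        rw [h7, ih, pow_succ]
        ring

/-- the polynomials of the sieve -/
def S (m : ℕ) : Polynomial ℝ :=
  ∏ a ∈ range m, ((Polynomial.C ((2 : ℝ) ^ (a + 1)) - Polynomial.X) *
    Polynomial.C (1 / ((2 : ℝ) ^ (a + 1) - 1)))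

lemma S_succ (m : ℕ) : S (m + 1) = S m * ((Polynomial.C ((2 : ℝ) ^ (m + 1)) - Polynomial.X) *
    Polynomial.C (1 / ((2 : ℝ) ^ (m + 1) - 1))) := prod_range_succ _ _

lemma S_mul (m : ℕ) : S m * (Polynomial.X - 1) = Polynomial.C ((-1) ^ m / DD m) * II (m + 1) := by
  induction m with
  | zero =>
    rw [II_succ]
    simp [S, II, DD]
  | succ m ih =>
    rw [S_succ, II_succ (m + 1)]
    have e1 : ((-1 : ℝ)) ^ (m + 1) / DD (m + 1) =
        -((-1) ^ m / DD m * (1 / ((2 : ℝ) ^ (m + 1) - 1))) := by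
      rw [DD_succ, pow_succ]
      have h1 := (DD_pos m).ne'
      have h3 := (two_pow_sub m).ne'
      field_simp
    rw [e1, Polynomial.C_neg, Polynomial.C_mul]
    calc _ = (S m * (Polynomial.X - 1)) * ((Polynomial.C ((2 : ℝ) ^ (m + 1)) - Polynomial.X) *
          Polynomial.C (1 / ((2 : ℝ) ^ (m + 1) - 1))) := by ring
      _ = _ := by
        rw [ih]
        ring

lemma S_rec (m : ℕ) : S (m + 1) = S m + Polynomial.C ((-1) ^ (m + 1) / DD (m + 1)) * II (m + 1) := by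
  have h3 := (two_pow_sub m).ne'
  have e1 : ((-1 : ℝ)) ^ (m + 1) / DD (m + 1) =
      -((-1) ^ m / DD m * (1 / ((2 : ℝ) ^ (m + 1) - 1))) := by
    rw [DD_succ, pow_succ]
    have h1 := (DD_pos m).ne'
    field_simp
  have e2 : (Polynomial.C ((2 : ℝ) ^ (m + 1)) - Polynomial.X) *
      Polynomial.C (1 / ((2 : ℝ) ^ (m + 1) - 1)) =
      1 - (Polynomial.X - 1) * Polynomial.C (1 / ((2 : ℝ) ^ (m + 1) - 1)) := by
    have e3 : Polynomial.C ((2 : ℝ) ^ (m + 1) - 1) * Polynomial.C (1 / ((2 : ℝ) ^ (m + 1) - 1)) = 1 := by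
      rw [← Polynomial.C_mul, mul_one_div_cancel h3, Polynomial.C_1]
    rw [Polynomial.C_sub, Polynomial.C_1] at e3
    linear_combination e3
  rw [e1, Polynomial.C_neg, Polynomial.C_mul, S_succ, e2]
  have e4 := S_mul m
  linear_combination (-Polynomial.C (1 / ((2 : ℝ) ^ (m + 1) - 1))) * e4

lemma L_S (m : ℕ) : L (S m) = ∑ i ∈ range (m + 1), (-(1 / 2 : ℝ)) ^ i / Q i := by
  induction m with
  | zero =>
    have e0 : S 0 = Polynomial.monomial 0 (1 : ℝ) := by simp [S]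
    rw [e0, L_mon]
    simp [cc, Q]
  | succ m ih =>
    rw [S_rec, map_add, L_C_mul, ih, sum_range_succ _ (m + 1)]
    congr 1
    have h1 := L_II_div (m + 1)
    calc (-1) ^ (m + 1) / DD (m + 1) * L (II (m + 1)) = (-1) ^ (m + 1) * (L (II (m + 1)) / DD (m + 1)) := by
          ring
      _ = _ := by
        rw [h1, ← mul_div_assoc, ← mul_pow]
        norm_num

/-! ### Signs -/

lemma S_eval (m : ℕ) (x : ℝ) : (S m).eval x = ∏ a ∈ range m, ((2 ^ (a + 1) - x) * (1 / (2 ^ (a + 1) - 1))) := by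
  unfold S
  rw [Polynomial.eval_prod]
  simp

lemma S_one (m : ℕ) : (S m).eval 1 = 1 := by
  rw [S_eval]
  refine prod_eq_one fun a _ => ?_
  exact mul_one_div_cancel (two_pow_sub a).ne'

lemma S_sign {m j : ℕ} (hj : 1 ≤ j) : 0 ≤ (-1 : ℝ) ^ m * (S m).eval (2 ^ j) := by
  rw [S_eval]
  by_cases h : j ≤ m
  · have : ∏ a ∈ range m, (((2 : ℝ) ^ (a + 1) - 2 ^ j) * (1 / (2 ^ (a + 1) - 1))) = 0 := by
      refine prod_eq_zero (i := j - 1) (mem_range.2 (by omega)) ?_
      rw [Nat.sub_add_cancel hj, sub_self, zero_mul]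
    rw [this, mul_zero]
  · push Not at h
    have e1 : (-1 : ℝ) ^ m = ∏ _a ∈ range m, (-1 : ℝ) := by rw [prod_const, card_range]
    rw [e1, ← prod_mul_distrib]
    refine prod_nonneg fun a ha => ?_
    have ha' := mem_range.1 ha
    have h1 : (2 : ℝ) ^ (a + 1) ≤ 2 ^ j := pow_le_pow_right₀ (by norm_num) (by omega)
    have h2 : 0 ≤ (2 ^ j - (2 : ℝ) ^ (a + 1)) * (1 / (2 ^ (a + 1) - 1)) :=
      mul_nonneg (by linarith) (by have := two_pow_sub a; positivity)
    linarith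

/-! ### The theorem -/

theorem t_MOM : SMOM := by
  intro Ω F X hF hX hlim
  have hcard : ∀ n, (0 : ℝ) < #(F n) := fun n => by exact_mod_cast (hF n).card_pos
  -- convergence for all the polynomials
  have hpoly : ∀ f : Polynomial ℝ, Tendsto (fun n => (∑ ω ∈ F n, f.eval (X n ω : ℝ)) / #(F n)) atTop
      (𝓝 (L f)) := by
    intro f
    induction f using Polynomial.induction_on' with
    | add p q hp hq =>
      rw [map_add]
      refine (hp.add hq).congr fun n => ?_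
      simp only [Polynomial.eval_add, sum_add_distrib, add_div]
    | monomial k a =>
      rw [L_mon, mul_comm]
      refine ((hlim k).const_mul a).congr fun n => ?_
      simp only [Polynomial.eval_monomial, ← mul_sum, mul_div_assoc]
  have hind : ∀ n, ((#((F n).filter fun ω => X n ω = 1) : ℝ)) =
      ∑ ω ∈ F n, if X n ω = 1 then (1 : ℝ) else 0 := by
    intro n
    rw [sum_boole]
  -- bounds
  have hup : ∀ m, Even m → ∀ n, (#((F n).filter fun ω => X n ω = 1) : ℝ) / #(F n) ≤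
      (∑ ω ∈ F n, (S m).eval (X n ω : ℝ)) / #(F n) := by
    intro m hm n
    rw [hind]
    refine div_le_div_of_nonneg_right (sum_le_sum fun ω hω => ?_) (hcard n).le
    obtain ⟨j, hj⟩ := hX n ω hω
    rcases Nat.eq_zero_or_pos j with h0 | h0
    · rw [hj, h0]
      simp [S_one]
    · have h1 : X n ω ≠ 1 := by
        rw [hj]
        exact (Nat.one_lt_two_pow (by omega)).ne'
      rw [if_neg h1, hj]
      have h2 := S_sign (m := m) h0
      rw [hm.neg_one_pow, one_mul] at h2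
      push_cast
      exact h2
  have hlow : ∀ m, Odd m → ∀ n, (∑ ω ∈ F n, (S m).eval (X n ω : ℝ)) / #(F n) ≤
      (#((F n).filter fun ω => X n ω = 1) : ℝ) / #(F n) := by
    intro m hm n
    rw [hind]
    refine div_le_div_of_nonneg_right (sum_le_sum fun ω hω => ?_) (hcard n).le
    obtain ⟨j, hj⟩ := hX n ω hω
    rcases Nat.eq_zero_or_pos j with h0 | h0
    · rw [hj, h0]
      simp [S_one]
    · have h1 : X n ω ≠ 1 := by
        rw [hj]
        exact (Nat.one_lt_two_pow (by omega)).ne'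
      rw [if_neg h1, hj]
      have h2 := S_sign (m := m) h0
      rw [hm.neg_one_pow] at h2
      push_cast
      linarith
  have hs := s_lim
  rw [tendsto_order] at hs ⊢
  constructor
  · intro a ha
    obtain ⟨m0, hm0⟩ := eventually_atTop.1 (hs.1 a ha)
    have h1 := hm0 (2 * m0 + 1) (by omega)
    rw [← L_S] at h1
    have h2 := (tendsto_order.1 (hpoly (S (2 * m0 + 1)))).1 a h1
    filter_upwards [h2] with n hn
    exact hn.trans_le (hlow _ (by simp) n)
  · intro a ha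
    obtain ⟨m0, hm0⟩ := eventually_atTop.1 (hs.2 a ha)
    have h1 := hm0 (2 * m0) (by omega)
    rw [← L_S] at h1
    have h2 := (tendsto_order.1 (hpoly (S (2 * m0)))).2 a h1
    filter_upwards [h2] with n hn
    exact (hup _ (by simp) n).trans_lt hn

end

end Pool.Agent.Y929.PP
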